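import Pool.Agent.H215R2.MT.All

/-!
McDuff property of tensor factors: if `M = P ⊗ Q` is McDuff and `P` has an abelian spectral gap
(for instance `P` is full, or `P = L^∞(X) ⋊ G` with `G` not inner amenable), then `Q` is McDuff.
-/

namespace Pool.Agent.Results.MP_e74d26_an.AbelianGap

universe u

theorem result : ∀ (M : Type u) [CStarAlgebra M] (τ : M →ₗ[ℂ] ℂ) (P Q : StarSubalgebra ℂ M),
    H215MT.Tens τ P Q → H215MT.AGap τ P → H215MT.McD τ (Set.univ : Set M) →
      H215MT.McD τ (Q : Set M) :=
  fun M _ τ P Q => H215MT.all_FIN M τ P Q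

end Pool.Agent.Results.MP_e74d26_an.AbelianGap
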